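import Pool.Agent.H756.SB.Stm2

/-!
# Poincare inequality for even log-concave densities on signed order cones
-/

set_option autoImplicit false

namespace Pool.Agent.U891.SB

open MeasureTheory Set Filter Topology
open scoped ENNReal
open Pool.Agent.R972.OP (pd OPp)
open Pool.Agent.U959.OC
open Pool.Agent.H756.SB

variable {n : ℕ} {ρ : ℝ → ℝ}

/-! ### even densities -/

theorem F_neg (he : ∀ t, ρ (-t) = ρ t) (t : ℝ) : F ρ (-t) = G ρ t := by
  unfold F G
  have h1 := integral_comp_neg_Iic (-t) ρ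
  rw [neg_neg] at h1
  rw [← h1]
  simp only [he]

theorem G_neg (he : ∀ t, ρ (-t) = ρ t) (t : ℝ) : G ρ (-t) = F ρ t := by
  have := F_neg he (-t)
  rw [neg_neg] at this
  exact this.symm

theorem La_neg (he : ∀ t, ρ (-t) = ρ t) (t : ℝ) : La ρ (-t) = -La ρ t := by
  unfold La
  rw [F_neg he, G_neg he]
  ring

theorem J_neg (he : ∀ t, ρ (-t) = ρ t) {t : ℝ} (ht : t ∈ J ρ) : -t ∈ J ρ := by
  unfold J at *
  rw [mem_interior_iff_mem_nhds] at *
  have h1 : Tendsto (fun s : ℝ => -s) (𝓝 (-t)) (𝓝 t) := by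
    have := (continuous_neg (G := ℝ)).tendsto (-t)
    rwa [neg_neg] at this
  have h2 := h1 ht
  rw [mem_map] at h2
  have e : (fun s : ℝ => -s) ⁻¹' supp ρ = supp ρ := by
    ext s
    show 0 < ρ (-s) ↔ 0 < ρ s
    rw [he]
  rwa [e] at h2

theorem La_lt (h : LCD ρ) {s t : ℝ} (hs : s ∈ J ρ) (ht : t ∈ J ρ) (hst : s < t) :
    La ρ s < La ρ t := by
  have h1 := h.F_strict hs ht hst
  have h2 := h.F_add_G s
  have h3 := h.F_add_G t
  have h4 := Real.log_lt_log (h.F_pos hs) h1
  have h5 := Real.log_lt_log (h.G_pos ht) (by linarith : G ρ t < G ρ s)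
  unfold La
  linarith

theorem La_inj (h : LCD ρ) {s t : ℝ} (hs : s ∈ J ρ) (ht : t ∈ J ρ) (hst : La ρ s = La ρ t) :
    s = t := by
  rcases lt_trichotomy s t with h1 | h1 | h1
  · exact absurd hst (La_lt h hs ht h1).ne
  · exact h1
  · exact absurd hst (La_lt h ht hs h1).ne'

theorem T_neg (h : LCD ρ) (he : ∀ t, ρ (-t) = ρ t) {T : ℝ → ℝ}
    (hT : ∀ y, T y ∈ J ρ ∧ La ρ (T y) = y) (y : ℝ) : T (-y) = -T y := by
  refine La_inj h (hT _).1 (J_neg he (hT y).1) ?_
  rw [(hT _).2, La_neg he, (hT y).2]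

theorem lg_neg (x : ℝ) : lg (1 - x) = -lg x := by
  unfold lg
  rw [sub_sub_cancel]
  ring

theorem le_zero (h : LCD ρ) (he : ∀ t, ρ (-t) = ρ t) (t : ℝ) : ρ t ≤ ρ 0 := by
  have h1 := h.logc t (-t) (1 / 2) (by norm_num) (by norm_num)
  have e : (1 - 1 / 2 : ℝ) * t + 1 / 2 * -t = 0 := by ring
  rw [e, he, ← Real.rpow_add_of_nonneg (h.nonneg t) (by norm_num) (by norm_num)] at h1
  have e2 : (1 - 1 / 2 + 1 / 2 : ℝ) = 1 := by norm_num
  rwa [e2, Real.rpow_one] at h1

theorem med_zero (h : LCD ρ) (he : ∀ t, ρ (-t) = ρ t) {m : ℝ} (hp : 0 < ρ m)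
    (hF : F ρ m = 1 / 2) : m = 0 := by
  by_contra hm
  have hF' : F ρ (-m) = 1 / 2 := by
    rw [F_neg he]
    have := h.F_add_G m
    linarith
  have hp' : 0 < ρ (-m) := by rw [he]; exact hp
  obtain ⟨a, ha, hpa, hpa', hFa, hFa'⟩ : ∃ a, 0 < a ∧ 0 < ρ a ∧ 0 < ρ (-a) ∧ F ρ a = 1 / 2 ∧
      F ρ (-a) = 1 / 2 := by
    rcases lt_or_gt_of_ne hm with h1 | h1
    · exact ⟨-m, by linarith, hp', by rw [neg_neg]; exact hp, hF', by rw [neg_neg]; exact hF⟩
    · exact ⟨m, h1, hp, hp', hF, hF'⟩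
  have h1 : 0 < ∫ u in (-a)..a, ρ u := by
    refine intervalIntegral.intervalIntegral_pos_of_pos_on h.integrable.intervalIntegrable
      (fun u hu => ?_) (by linarith)
    exact (h.convex.ordConnected.out hpa' hpa ⟨hu.1.le, hu.2.le⟩ : u ∈ supp ρ)
  have h2 := h.F_sub (-a) a
  linarith

/-! ### the signed polytope and the signed cone -/

theorem xs_cont (u : Fin n × Bool) : Continuous fun x : Fin n → ℝ => xs x u := by
  unfold xs
  rcases u with ⟨i, b⟩
  cases b
  · simp only [Bool.false_eq_true, if_false]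
    exact continuous_apply i
  · simp only [if_true]
    exact continuous_const.sub (continuous_apply i)

theorem sg_cont (u : Fin n × Bool) : Continuous fun x : Fin n → ℝ => sg x u := by
  unfold sg
  rcases u with ⟨i, b⟩
  cases b
  · simp only [Bool.false_eq_true, if_false]
    exact continuous_apply i
  · simp only [if_true]
    exact (continuous_apply i).neg

theorem cls (S : Fin n × Bool → Fin n × Bool → Prop) : IsClosed (OPs S) := by
  have h : OPs S = (⋂ i, ({x | 0 ≤ x i} ∩ {x | x i ≤ 1})) ∩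
      ⋂ u, ⋂ v, ⋂ (_ : S u v), {x | xs x u ≤ xs x v} := by
    ext x; simp only [OPs, mem_ofPred_eq, mem_inter_iff, mem_iInter]
  rw [h]
  exact (isClosed_iInter fun i => (isClosed_le continuous_const (continuous_apply i)).inter
    (isClosed_le (continuous_apply i) continuous_const)).inter (isClosed_iInter fun u =>
      isClosed_iInter fun v => isClosed_iInter fun _ => isClosed_le (xs_cont u) (xs_cont v))

theorem cps (S : Fin n × Bool → Fin n × Bool → Prop) : IsCompact (OPs S) := by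
  refine IsCompact.of_isClosed_subset (isCompact_univ_pi (fun _ : Fin n => isCompact_Icc
    (a := (0 : ℝ)) (b := 1))) (cls S) ?_
  intro x hx
  rw [mem_univ_pi]
  exact hx.1

theorem conP_meas (S : Fin n × Bool → Fin n × Bool → Prop) : MeasurableSet (conP S) := by
  have : conP S = ⋂ u, ⋂ v, ⋂ (_ : S u v), {x | sg x u ≤ sg x v} := by
    ext x; simp only [conP, mem_ofPred_eq, mem_iInter]
  rw [this]
  exact MeasurableSet.iInter fun u => MeasurableSet.iInter fun v => MeasurableSet.iInter fun _ =>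
    measurableSet_le (sg_cont u).measurable (sg_cont v).measurable

theorem ops_sub (S : Fin n × Bool → Fin n × Bool → Prop) :
    OPs S ⊆ OPp (fun _ _ : Fin n => False) :=
  fun _ hx => ⟨hx.1, fun _ _ h => h.elim⟩

/-- one approximation -/
theorem approxs (hP : S_POI) {θ θ' : ℝ → ℝ} (h : ∀ y, HasDerivAt θ (θ' y) y)
    (hc : Continuous θ') {K : ℝ}
    (hK : ∀ x, 0 ≤ x → x ≤ 1 → (x * (1 - x) * θ' x) ^ 2 ≤ K ^ 2)
    (S : Fin n × Bool → Fin n × Bool → Prop) (hS : ∀ u, ¬ S u u)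
    {f : (Fin n → ℝ) → ℝ} (hf : ContDiff ℝ 1 f) :
    (volume (OPs S)).toReal * (∫ x in OPs S, f (cw θ x) ^ 2) - (∫ x in OPs S, f (cw θ x)) ^ 2 ≤
    (volume (OPs S)).toReal * (4 * K ^ 2 * ∫ x in OPs S, en f (cw θ x)) := by
  have hcd := cw_contDiff (n := n) h hc
  have hg : ContDiff ℝ 1 fun x => f (cw θ x) := hf.comp hcd
  refine (hP n S hS _ hg).trans ?_
  refine mul_le_mul_of_nonneg_left ?_ ENNReal.toReal_nonneg
  have hcp : IsCompact (OPs S) := cps S
  have hcpd : ∀ a, Continuous (pd (fun x => f (cw θ x)) a) := by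
    intro a
    unfold pd
    exact (hg.continuous_fderiv one_ne_zero).clm_apply continuous_const
  have hcG : Continuous (Glo fun x => f (cw θ x)) := by
    unfold Glo
    refine continuous_finsetSum _ fun a _ => ?_
    exact (continuous_const.mul (((continuous_apply a).mul
      (continuous_const.sub (continuous_apply a))).pow 2)).mul ((hcpd a).pow 2)
  have hce : Continuous fun x => en f (cw θ x) := (en_cont hf).comp hcd.continuous
  have h1 : ∫ x in OPs S, Glo (fun x => f (cw θ x)) x ≤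
      ∫ x in OPs S, 8 * K ^ 2 * en f (cw θ x) := by
    refine setIntegral_mono_on (hcG.continuousOn.integrableOn_compact hcp)
      ((continuous_const.mul hce).continuousOn.integrableOn_compact hcp)
      hcp.isClosed.measurableSet fun x hx => ?_
    unfold Glo en
    rw [Finset.mul_sum]
    refine Finset.sum_le_sum fun a _ => ?_
    rw [pd_cw h hf a x]
    have h2 := hK (x a) (hx.1 a).1 (hx.1 a).2
    calc 8 * (x a * (1 - x a)) ^ 2 * (θ' (x a) * pd f a (cw θ x)) ^ 2
        = 8 * (x a * (1 - x a) * θ' (x a)) ^ 2 * pd f a (cw θ x) ^ 2 := by ring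
      _ ≤ 8 * K ^ 2 * pd f a (cw θ x) ^ 2 := by
          refine mul_le_mul_of_nonneg_right ?_ (sq_nonneg _)
          linarith
  rw [integral_const_mul] at h1
  linarith

/-- limits of bounded continuous functions -/
theorem lim_ints {θ : ℕ → ℝ → ℝ} {q : ℝ → ℝ}
    (hθ : ∀ k, Continuous (θ k)) (hlim : ∀ x, 0 < x → x < 1 → Tendsto (fun k => θ k x) atTop (𝓝 (q x)))
    (S : Fin n × Bool → Fin n × Bool → Prop) {φ : (Fin n → ℝ) → ℝ} (hφ : Continuous φ) {B : ℝ}
    (hB : ∀ x, |φ x| ≤ B) :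
    Tendsto (fun k => ∫ x in OPs S, φ (cw (θ k) x)) atTop (𝓝 (∫ x in OPs S, φ (cw q x))) := by
  have hcp : IsCompact (OPs S) := cps S
  have hfin : IsFiniteMeasure ((volume : Measure (Fin n → ℝ)).restrict (OPs S)) :=
    ⟨by rw [Measure.restrict_apply_univ]; exact hcp.measure_lt_top⟩
  refine tendsto_integral_of_dominated_convergence (fun _ => B) (fun k => ?_)
    (integrable_const _) (fun k => ?_) ?_
  · have : Continuous (cw (n := n) (θ k)) := continuous_pi fun i => (hθ k).comp (continuous_apply i)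
    exact (hφ.comp this).aestronglyMeasurable
  · exact Eventually.of_forall fun x => hB _
  · rw [ae_restrict_iff' hcp.isClosed.measurableSet]
    filter_upwards [ae_open (n := n)] with x hx hxo
    have h1 := hx (ops_sub S hxo)
    have h2 : Tendsto (fun k => cw (θ k) x) atTop (𝓝 (cw q x)) := by
      rw [tendsto_pi_nhds]
      intro i
      exact hlim (x i) (h1 i).1 (h1 i).2
    exact (hφ.tendsto _).comp h2

/-- signed coordinates of the transported point -/
theorem sg_cw (h : LCD ρ) (he : ∀ t, ρ (-t) = ρ t) {T : ℝ → ℝ}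
    (hT : ∀ y, T y ∈ J ρ ∧ La ρ (T y) = y) (x : Fin n → ℝ) (u : Fin n × Bool) :
    sg (cw (fun x => T (lg x)) x) u = T (lg (xs x u)) := by
  rcases u with ⟨i, b⟩
  cases b
  · simp [sg, xs, cw]
  · simp only [sg, xs, cw, if_true]
    rw [lg_neg, T_neg h he hT]

theorem xs_Ioo {x : Fin n → ℝ} (hx : ∀ i, x i ∈ Ioo (0 : ℝ) 1) (u : Fin n × Bool) :
    xs x u ∈ Ioo (0 : ℝ) 1 := by
  rcases u with ⟨i, b⟩
  have := hx i
  cases b
  · simpa [xs] using this
  · simp only [xs, if_true]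
    exact ⟨by linarith [this.2], by linarith [this.1]⟩

/-- transport of integrals -/
theorem transports (h : LCD ρ) (he : ∀ t, ρ (-t) = ρ t) {T : ℝ → ℝ}
    (hT : ∀ y, T y ∈ J ρ ∧ La ρ (T y) = y)
    (hTm : StrictMono T) (S : Fin n × Bool → Fin n × Bool → Prop) (φ : (Fin n → ℝ) → ℝ)
    (hφ : Continuous φ) :
    ∫ x in OPs S, φ (cw (fun x => T (lg x)) x) = ∫ x in conP S, φ x ∂(Pn n ρ) ∧
    volume (OPs S) = Pn n ρ (conP S) := by
  have := sf_law h
  have hq : Measurable fun x => T (lg x) := hTm.monotone.measurable.comp lg_meas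
  have hQ : Measurable (cw (n := n) fun x => T (lg x)) :=
    measurable_pi_iff.2 fun i => hq.comp (measurable_pi_apply i)
  have hmap : Measure.map (cw (n := n) fun x => T (lg x))
      ((volume : Measure (Fin n → ℝ)).restrict (univ.pi fun _ => Ioo (0 : ℝ) 1)) = Pn n ρ := by
    rw [volume_pi, Measure.restrict_pi_pi]
    have hsf : ∀ i : Fin n, SigmaFinite (Measure.map (fun x => T (lg x))
        ((volume : Measure ℝ).restrict (Ioo (0 : ℝ) 1))) := by
      intro i
      rw [h.map_q hT hTm]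
      exact sf_law h
    have h1 := Measure.pi_map_pi (μ := fun _ : Fin n => (volume : Measure ℝ).restrict (Ioo (0 : ℝ) 1))
      (f := fun _ => fun x => T (lg x)) (hμ := hsf) (fun i => hq.aemeasurable)
    have e : (cw (n := n) fun x => T (lg x)) = fun x i => T (lg (x i)) := rfl
    rw [e, h1]
    unfold Pn
    congr 1
    funext i
    exact h.map_q hT hTm
  have hset : OPs S =ᵐ[volume] ((cw fun x => T (lg x)) ⁻¹' conP S ∩
      (univ.pi fun _ : Fin n => Ioo (0 : ℝ) 1) : Set (Fin n → ℝ)) := by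
    filter_upwards [ae_open (n := n)] with x hx
    refine propext ⟨fun hxo => ?_, fun hxo => ?_⟩
    · have hxo' : x ∈ OPs S := hxo
      have h2 := hx ⟨hxo'.1, fun _ _ h => h.elim⟩
      refine ⟨fun u v huv => ?_, fun i _ => h2 i⟩
      rw [sg_cw h he hT, sg_cw h he hT]
      refine hTm.monotone ?_
      rcases eq_or_lt_of_le (hxo'.2 u v huv) with he | hlt
      · rw [he]
      · exact (lg_strict (xs_Ioo h2 u).1 hlt (xs_Ioo h2 v).2).le
    · obtain ⟨h1, h2⟩ := hxo
      have h2' : ∀ i, x i ∈ Ioo (0 : ℝ) 1 := fun i => h2 i (mem_univ _)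
      refine ⟨fun i => ⟨(h2' i).1.le, (h2' i).2.le⟩, fun u v huv => ?_⟩
      by_contra hc
      push Not at hc
      have h3 := h1 u v huv
      rw [sg_cw h he hT, sg_cw h he hT] at h3
      have h4 := hTm (lg_strict (xs_Ioo h2' v).1 hc (xs_Ioo h2' u).2)
      exact absurd h3 (not_le.2 h4)
  have hcm := conP_meas S
  constructor
  · rw [← hmap, setIntegral_map hcm hφ.aestronglyMeasurable hQ.aemeasurable,
      Measure.restrict_restrict (hQ hcm)]
    exact setIntegral_congr_set hset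
  · rw [← hmap, Measure.map_apply hQ hcm, Measure.restrict_apply (hQ hcm)]
    exact measure_congr hset

/-- SB-CORE -/
theorem t_CORE : S_POI → S_CORE := by
  intro hP ρ h he
  obtain ⟨m, T, hp, hF, hs, hT, hTm, hder⟩ := h.exists_T
  have hm := med_zero h he hp hF
  subst hm
  refine ⟨hp, le_zero h he, fun n S hS => ?_⟩
  have htr := fun φ hφ => transports (n := n) h he hT hTm S φ hφ
  refine ⟨(htr (fun _ => 0) continuous_const).2, fun f B B' hf hfB hfB' => ?_⟩
  rw [← (htr (fun _ => 0) continuous_const).2]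
  -- the derivative of `T`
  obtain ⟨d, hd⟩ : ∃ d : ℝ → ℝ, d = fun y => F ρ (T y) * G ρ (T y) / ρ (T y) := ⟨_, rfl⟩
  have hTd : ∀ y, HasDerivAt T (d y) y ∧ 0 ≤ d y ∧ d y ≤ 1 / (2 * ρ 0) := by
    intro y
    obtain ⟨e, h1, h2, h3, h4⟩ := hder y
    have : d y = e := by rw [hd, h4]
    rw [this]
    exact ⟨h1, h2, h3⟩
  have hTc : Continuous T := continuous_iff_continuousAt.2 fun y => (hTd y).1.continuousAt
  have hGc : Continuous (G ρ) := by
    have e : G ρ = fun t => 1 - F ρ t := by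
      funext t
      have := h.F_add_G t
      linarith
    rw [e]
    exact continuous_const.sub h.F_cont
  have hdc : Continuous d := by
    rw [hd]
    refine ((h.F_cont.comp hTc).mul (hGc.comp hTc)).div ?_ fun y => (J_pos (hT y).1).ne'
    exact h.cont.comp_continuous hTc fun y => (hT y).1
  have hep : ∀ k : ℕ, (0 : ℝ) < 1 / ((k : ℝ) + 1) := fun k => by positivity
  obtain ⟨θ, hθ⟩ : ∃ θ : ℕ → ℝ → ℝ, θ = fun (k : ℕ) x => T (le (1 / ((k : ℝ) + 1)) x) := ⟨_, rfl⟩
  obtain ⟨θ', hθ'⟩ : ∃ θ' : ℕ → ℝ → ℝ, θ' = fun (k : ℕ) x =>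
      d (le (1 / ((k : ℝ) + 1)) x) * le' (1 / ((k : ℝ) + 1)) x := ⟨_, rfl⟩
  have hθd : ∀ k y, HasDerivAt (θ k) (θ' k y) y := by
    intro k y
    rw [hθ, hθ']
    exact (hTd _).1.comp y (le_der (hep k) y)
  have hlec : ∀ k : ℕ, Continuous (le (1 / ((k : ℝ) + 1))) := fun k =>
    continuous_iff_continuousAt.2 fun y => (le_der (hep k) y).continuousAt
  have hθc : ∀ k, Continuous (θ' k) := by
    intro k
    rw [hθ']
    exact (hdc.comp (hlec k)).mul (le'_cont (hep k))
  have hθ0 : ∀ k, Continuous (θ k) := fun k =>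
    continuous_iff_continuousAt.2 fun y => (hθd k y).continuousAt
  have hK : ∀ k x, 0 ≤ x → x ≤ 1 → (x * (1 - x) * θ' k x) ^ 2 ≤ (1 / (2 * ρ 0)) ^ 2 := by
    intro k x h0 h1
    obtain ⟨b1, b2⟩ := le'_bd (hep k) h0 h1
    obtain ⟨-, d1, d2⟩ := hTd (le (1 / ((k : ℝ) + 1)) x)
    have e : x * (1 - x) * θ' k x =
        d (le (1 / ((k : ℝ) + 1)) x) * (x * (1 - x) * le' (1 / ((k : ℝ) + 1)) x) := by
      rw [hθ']
      ring
    rw [e]
    refine pow_le_pow_left₀ (mul_nonneg d1 b1) ?_ 2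
    calc d (le (1 / ((k : ℝ) + 1)) x) * (x * (1 - x) * le' (1 / ((k : ℝ) + 1)) x)
        ≤ d (le (1 / ((k : ℝ) + 1)) x) * 1 := mul_le_mul_of_nonneg_left b2 d1
      _ ≤ _ := by rw [mul_one]; exact d2
  have hlim : ∀ x, 0 < x → x < 1 → Tendsto (fun k => θ k x) atTop (𝓝 (T (lg x))) := by
    intro x h0 h1
    rw [hθ]
    exact (hTc.tendsto _).comp (le_lim h0 h1)
  have hB0 : 0 ≤ B := (abs_nonneg _).trans (hfB 0)
  have hen0 : ∀ x, 0 ≤ en f x := fun x => Finset.sum_nonneg fun a _ => sq_nonneg _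
  have t1 := lim_ints (q := fun x => T (lg x)) hθ0 hlim S hf.continuous hfB
  have hf2 : Continuous fun x => f x ^ 2 := hf.continuous.pow 2
  have t2 := lim_ints (q := fun x => T (lg x)) hθ0 hlim S hf2 (B := B ^ 2)
    (fun x => by rw [abs_pow]; exact pow_le_pow_left₀ (abs_nonneg _) (hfB x) 2)
  have t3 := lim_ints (q := fun x => T (lg x)) hθ0 hlim S (en_cont hf) (B := B')
    (fun x => by rw [abs_of_nonneg (hen0 x)]; exact hfB' x)
  have tL := (t2.const_mul (volume (OPs S)).toReal).sub (t1.pow 2)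
  have tR := (t3.const_mul (4 * (1 / (2 * ρ 0)) ^ 2)).const_mul (volume (OPs S)).toReal
  have hfin := le_of_tendsto_of_tendsto' tL tR fun k => approxs hP (hθd k) (hθc k) (hK k) S hS hf
  rw [(htr _ hf.continuous).1] at hfin
  have e2 := (htr (fun x => f x ^ 2) hf2).1
  have e3 := (htr (en f) (en_cont hf)).1
  rw [e3] at hfin
  have e5 : 4 * (1 / (2 * ρ 0)) ^ 2 = 1 / ρ 0 ^ 2 := by
    field_simp
    norm_num
  rw [e5] at hfin
  rw [← e2]
  exact hfin

end Pool.Agent.U891.SB
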